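import Pool.Agent.H647R3.EDef

set_option autoImplicit false

open Set Topology

namespace H647R3.GDS.TB

open H647R3.Fac H647R3.GDS PiNat

/-! ### values -/

/-- value -/
noncomputable def val {T : Set Cant} (x : ET T) (s : Cant) : ℝ := ((x : BF) : Cant → ℝ) s

section
variable {T : Set Cant}

theorem val_add (x y : ET T) (s : Cant) : val (x + y) s = val x s + val y s := rfl
theorem val_sub (x y : ET T) (s : Cant) : val (x - y) s = val x s - val y s := rfl
theorem val_smul (c : ℝ) (x : ET T) (s : Cant) : val (c • x) s = c * val x s := rfl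

theorem abs_val_le (x : ET T) (s : Cant) : |val x s| ≤ ‖x‖ := by
  exact lp.norm_apply_le_norm (p := ⊤) (by simp) (x : BF) s

theorem norm_le {x : ET T} {c : ℝ} (hc : 0 ≤ c) (h : ∀ s, |val x s| ≤ c) : ‖x‖ ≤ c := by
  exact lp.norm_le_of_forall_le (f := (x : BF)) hc (fun s => h s)

theorem val_le (x : ET T) (s : Cant) : val x s ≤ ‖x‖ := (le_abs_self _).trans (abs_val_le x s)

theorem val_close (x y : ET T) (s : Cant) : |val x s - val y s| ≤ ‖x - y‖ := by
  rw [← val_sub]; exact abs_val_le _ _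

theorem norm_close (x y : ET T) : |‖x‖ - ‖y‖| ≤ ‖x - y‖ := abs_norm_sub_norm_le x y

/-! ### generators -/

theorem memlp_of_bdd {f : Cant → ℝ} (h : ∀ s, |f s| ≤ 1) : Memℓp f ⊤ := by
  rw [memℓp_infty_iff]
  refine ⟨1, ?_⟩
  rintro _ ⟨s, rfl⟩
  simpa using h s

theorem indF_le (l : List Bool) (s : Cant) : |indF l s| ≤ 1 := by
  unfold indF
  split_ifs <;> norm_num

theorem jumpF_le (t : Cant) (s : Cant) : |jumpF t s| ≤ 1 := by
  unfold jumpF
  split_ifs <;> norm_num

variable (T) in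
/-- indicator as an element -/
noncomputable def eI (l : List Bool) : ET T :=
  ⟨⟨indF l, memlp_of_bdd (indF_le l)⟩, Submodule.le_topologicalClosure _
    (Submodule.subset_span (Or.inl ⟨l, rfl⟩))⟩

/-- jump function as an element -/
noncomputable def eJ {t : Cant} (ht : t ∈ T) : ET T :=
  ⟨⟨jumpF t, memlp_of_bdd (jumpF_le t)⟩, Submodule.le_topologicalClosure _
    (Submodule.subset_span (Or.inr ⟨t, ht, rfl⟩))⟩

theorem val_eI (l : List Bool) (s : Cant) : val (eI T l) s = indF l s := rfl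
theorem val_eJ {t : Cant} (ht : t ∈ T) (s : Cant) : val (eJ ht) s = jumpF t s := rfl

open Classical in
theorem indF_res (p : Cant) (n : ℕ) (s : Cant) :
    indF (res p n) s = if s ∈ cylinder p n then 1 else 0 := by
  unfold indF
  rw [res_length, cylinder_eq_res]
  simp only [mem_ofPred_eq]
  by_cases h : res s n = res p n <;> simp [h]

theorem indF_nil (s : Cant) : indF [] s = 1 := by
  unfold indF; simp

/-! ### local constancy of combinations of generators -/

/-- locally constant at `s` -/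
def LA (y : Cant → ℝ) (s : Cant) : Prop := ∃ k, ∀ s' ∈ cylinder s k, y s' = y s

/-- constant near `s` along an odd sequence -/
def LB (y : Cant → ℝ) (s : Cant) : Prop :=
  ∃ k, ∀ s' ∈ cylinder s k, Odd (firstDiff s' s) → y s' = y s

theorem LA.add {y z : Cant → ℝ} {s : Cant} (h : LA y s) (h' : LA z s) : LA (y + z) s := by
  obtain ⟨k, hk⟩ := h
  obtain ⟨k', hk'⟩ := h'
  refine ⟨max k k', fun s' hs' => ?_⟩
  rw [Pi.add_apply, Pi.add_apply, hk s' (cylinder_anti s (le_max_left _ _) hs'),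
    hk' s' (cylinder_anti s (le_max_right _ _) hs')]

theorem LB.add {y z : Cant → ℝ} {s : Cant} (h : LB y s) (h' : LB z s) : LB (y + z) s := by
  obtain ⟨k, hk⟩ := h
  obtain ⟨k', hk'⟩ := h'
  refine ⟨max k k', fun s' hs' ho => ?_⟩
  rw [Pi.add_apply, Pi.add_apply, hk s' (cylinder_anti s (le_max_left _ _) hs') ho,
    hk' s' (cylinder_anti s (le_max_right _ _) hs') ho]

theorem LA.smul {y : Cant → ℝ} {s : Cant} (h : LA y s) (c : ℝ) : LA (c • y) s := by
  obtain ⟨k, hk⟩ := h
  exact ⟨k, fun s' hs' => by rw [Pi.smul_apply, Pi.smul_apply, hk s' hs']⟩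

theorem LB.smul {y : Cant → ℝ} {s : Cant} (h : LB y s) (c : ℝ) : LB (c • y) s := by
  obtain ⟨k, hk⟩ := h
  exact ⟨k, fun s' hs' ho => by rw [Pi.smul_apply, Pi.smul_apply, hk s' hs' ho]⟩

theorem LA_indF (l : List Bool) (s : Cant) : LA (indF l) s := by
  refine ⟨l.length, fun s' hs' => ?_⟩
  rw [cylinder_eq_res] at hs'
  unfold indF
  rw [show res s' l.length = res s l.length from hs']

theorem LA_jumpF {t s : Cant} (h : s ≠ t) : LA (jumpF t) s := by
  refine ⟨firstDiff s t + 1, fun s' hs' => ?_⟩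
  rw [mem_cylinder_iff] at hs'
  have h1 : s' (firstDiff s t) ≠ t (firstDiff s t) := by
    rw [hs' _ (Nat.lt_succ_self _)]
    exact apply_firstDiff_ne h
  have h2 : s' ≠ t := fun h => h1 (by rw [h])
  have h3 : firstDiff s' t = firstDiff s t := by
    apply le_antisymm
    · by_contra hcon
      push Not at hcon
      exact h1 (apply_eq_of_lt_firstDiff hcon)
    · rw [← mem_cylinder_iff_le_firstDiff h2, mem_cylinder_iff]
      intro i hi
      rw [hs' i (by omega)]
      exact apply_eq_of_lt_firstDiff hi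
  unfold jumpF
  rw [h3]
  simp only [h2, h, ne_eq, not_false_eq_true, true_and]

theorem LB_jumpF (t s : Cant) : LB (jumpF t) s := by
  by_cases h : s = t
  · subst h
    refine ⟨0, fun s' _ ho => ?_⟩
    unfold jumpF
    rw [if_neg, if_neg]
    · simp
    · rintro ⟨_, he⟩
      exact (Nat.not_even_iff_odd.2 ho) he
  · obtain ⟨k, hk⟩ := LA_jumpF h
    exact ⟨k, fun s' hs' _ => hk s' hs'⟩

/-- good functions -/
def LC (y : Cant → ℝ) : Prop := (∀ s, LB y s) ∧ {s | ¬ LA y s}.Finite

theorem LC_of_span {y : BF} (hy : y ∈ Submodule.span ℝ (gens T)) : LC (y : Cant → ℝ) := by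
  induction hy using Submodule.span_induction with
  | mem y hy =>
    rcases hy with ⟨l, hl⟩ | ⟨t, _, ht⟩
    · rw [hl]
      refine ⟨fun s => ?_, ?_⟩
      · obtain ⟨k, hk⟩ := LA_indF l s
        exact ⟨k, fun s' hs' _ => hk s' hs'⟩
      · convert Set.finite_empty
        ext s
        simpa using LA_indF l s
    · rw [ht]
      refine ⟨LB_jumpF t, (Set.finite_singleton t).subset fun s hs => ?_⟩
      by_contra hne
      exact hs (LA_jumpF hne)
  | zero =>
    refine ⟨fun s => ⟨0, fun _ _ _ => rfl⟩, ?_⟩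
    convert Set.finite_empty
    ext s
    simp only [mem_ofPred_eq, mem_empty_iff_false, iff_false, not_not]
    exact ⟨0, fun _ _ => rfl⟩
  | add y z _ _ h1 h2 =>
    refine ⟨fun s => (h1.1 s).add (h2.1 s), (h1.2.union h2.2).subset fun s hs => ?_⟩
    by_contra hne
    simp only [mem_union, mem_ofPred_eq, not_or, not_not] at hne
    exact hs (hne.1.add hne.2)
  | smul c y _ h1 =>
    refine ⟨fun s => (h1.1 s).smul c, h1.2.subset fun s hs => ?_⟩
    by_contra hne
    simp only [mem_ofPred_eq, not_not] at hne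
    exact hs (hne.smul c)

/-- flip the `j`-th bit -/
def flip (s : Cant) (j : ℕ) : Cant := Function.update s j (!(s j))

theorem flip_ne (s : Cant) (j : ℕ) : flip s j j ≠ s j := by
  unfold flip; simp

theorem flip_of_ne (s : Cant) {i j : ℕ} (h : i ≠ j) : flip s j i = s i := by
  unfold flip; rw [Function.update_of_ne h]

theorem flip_ne' (s : Cant) (j : ℕ) : flip s j ≠ s := fun h => flip_ne s j (by rw [h])

theorem firstDiff_flip (s : Cant) (j : ℕ) : firstDiff (flip s j) s = j := by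
  apply le_antisymm
  · by_contra hcon
    push Not at hcon
    exact flip_ne s j (apply_eq_of_lt_firstDiff hcon)
  · rw [← mem_cylinder_iff_le_firstDiff (flip_ne' s j), mem_cylinder_iff]
    intro i hi
    exact flip_of_ne s hi.ne

theorem flip_inj (s : Cant) {i j : ℕ} (h : flip s i = flip s j) : i = j := by
  rw [← firstDiff_flip s i, h, firstDiff_flip]

theorem flip_mem (s : Cant) {k j : ℕ} (h : k ≤ j) : flip s j ∈ cylinder s k := by
  rw [mem_cylinder_iff]
  intro i hi
  exact flip_of_ne s (by omega)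

/-- near every point there is a point of local constancy with the same value -/
theorem exists_LA {y : Cant → ℝ} (hy : LC y) (s0 p : Cant) :
    ∃ s1, s1 ≠ p ∧ LA y s1 ∧ y s1 = y s0 := by
  obtain ⟨k, hk⟩ := hy.1 s0
  have hfin : (insert p {s | ¬ LA y s}).Finite := hy.2.insert p
  have hinf : (Set.range fun j : ℕ => flip s0 (2 * (k + j) + 1)).Infinite := by
    apply Set.infinite_range_of_injective
    intro i j h
    have := flip_inj s0 h
    omega
  obtain ⟨s1, ⟨j, rfl⟩, hs1⟩ := hinf.exists_notMem_finite hfin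
  simp only [mem_insert_iff, mem_ofPred_eq, not_or, not_not] at hs1
  refine ⟨_, hs1.1, hs1.2, hk _ (flip_mem s0 (by omega)) ?_⟩
  rw [firstDiff_flip]
  exact ⟨k + j, rfl⟩

/-! ### the open ball -/

variable (T) in
/-- the ball -/
def BB : Set (ET T) := Metric.ball (eI T []) (1 / 2)

theorem BB_pos {x : ET T} (hx : x ∈ BB T) (s : Cant) : 1 / 2 < val x s := by
  unfold BB at hx
  rw [Metric.mem_ball, dist_eq_norm] at hx
  have := (val_close x (eI T []) s).trans_lt hx
  rw [val_eI, indF_nil, abs_lt] at this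
  linarith [this.1]

theorem near_max {x : ET T} (hx : x ∈ BB T) {ε : ℝ} (hε : 0 < ε) : ∃ s, ‖x‖ - ε < val x s := by
  by_contra hcon
  push Not at hcon
  have h0 := BB_pos hx (fun _ => true)
  have h1 : 0 ≤ ‖x‖ - ε := by linarith [hcon (fun _ => true)]
  have := norm_le h1 fun s => by
    rw [abs_of_pos (by linarith [BB_pos hx s])]
    exact hcon s
  linarith

open Classical in
/-- the peak lemma -/
theorem peak {x : ET T} (hx : x ∈ BB T) {δ : ℝ} (hδ : 0 < δ) (p : Cant) :
    ∃ s1, s1 ≠ p ∧ ∃ n0, ∀ n, n0 ≤ n → ∃ x' ∈ BB T, ‖x' - x‖ < δ ∧ ∃ ε > 0,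
      (∀ s ∉ cylinder s1 n, val x' s ≤ ‖x'‖ - ε) ∧ (∀ s ∈ cylinder s1 n, val x' s = ‖x'‖) := by
  obtain ⟨ρ, hρ, hball⟩ := Metric.isOpen_iff.1 Metric.isOpen_ball x hx
  set η : ℝ := min δ ρ / 8 with hη
  have hη0 : 0 < η := by have := lt_min hδ hρ; positivity
  -- approximate
  have hmem : (x : BF) ∈ closure ((Submodule.span ℝ (gens T) : Submodule ℝ BF) : Set BF) := by
    have := x.2
    unfold ET at this
    rwa [← SetLike.mem_coe, Submodule.topologicalClosure_coe] at this
  obtain ⟨y0, hy0, hxy0⟩ := Metric.mem_closure_iff.1 hmem η hη0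
  set y : ET T := ⟨y0, Submodule.le_topologicalClosure _ hy0⟩ with hy
  have hxy : ‖y - x‖ < η := by
    rw [dist_comm, dist_eq_norm] at hxy0
    exact hxy0
  have hyB : y ∈ BB T := by
    apply hball
    rw [Metric.mem_ball, dist_eq_norm]
    have : min δ ρ ≤ ρ := min_le_right _ _
    linarith [hxy]
  have hLC : LC (val y) := LC_of_span hy0
  obtain ⟨s0, hs0⟩ := near_max hyB hη0
  obtain ⟨s1, hs1p, ⟨n0, hn0⟩, hs1v⟩ := exists_LA hLC s0 p
  refine ⟨s1, hs1p, n0, fun n hn => ?_⟩
  set x' : ET T := y + (3 * η) • eI T (res s1 n) with hx'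
  have hv : ∀ s, val x' s = val y s + 3 * η * (if s ∈ cylinder s1 n then 1 else 0) := by
    intro s
    rw [hx', val_add, val_smul, val_eI, indF_res]
  have hin : ∀ s ∈ cylinder s1 n, val x' s = val y s1 + 3 * η := by
    intro s hs
    rw [hv, if_pos hs, hn0 s (cylinder_anti s1 hn hs)]
    ring
  have hout : ∀ s ∉ cylinder s1 n, val x' s = val y s := by
    intro s hs
    rw [hv, if_neg hs]
    ring
  have hy1 : ‖y‖ - η < val y s1 := by rw [hs1v]; exact hs0
  have hdist : ‖x' - x‖ < 5 * η := by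
    have h1 : ‖(3 * η) • eI T (res s1 n)‖ ≤ 3 * η := by
      refine norm_le (by positivity) fun s => ?_
      rw [val_smul, val_eI, abs_mul, abs_of_pos (by positivity : 0 < 3 * η)]
      have := indF_le (res s1 n) s
      nlinarith
    have h2 : x' - x = (y - x) + (3 * η) • eI T (res s1 n) := by
      rw [hx']; abel
    rw [h2]
    refine (norm_add_le _ _).trans_lt ?_
    linarith
  have hmin1 : min δ ρ ≤ δ := min_le_left _ _
  have hmin2 : min δ ρ ≤ ρ := min_le_right _ _
  have hxB : x' ∈ BB T := by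
    apply hball
    rw [Metric.mem_ball, dist_eq_norm]
    linarith
  have hnorm : ‖x'‖ = val y s1 + 3 * η := by
    apply le_antisymm
    · refine norm_le (by linarith [BB_pos hyB s1]) fun s => ?_
      rw [abs_of_pos (by linarith [BB_pos hxB s])]
      by_cases hs : s ∈ cylinder s1 n
      · rw [hin s hs]
      · rw [hout s hs]
        linarith [val_le y s]
    · rw [← hin s1 (self_mem_cylinder s1 n)]
      exact val_le _ _
  refine ⟨x', hxB, by linarith, η, hη0, ?_, ?_⟩
  · intro s hs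
    rw [hout s hs, hnorm]
    linarith [val_le y s]
  · intro s hs
    rw [hin s hs, hnorm]

/-! ### the open dense sets -/

variable (T) in
/-- peaked at scale `m` -/
def PP (m : ℕ) : Set (ET T) := {x | x ∈ BB T ∧ ∃ p : Cant, ∃ n : ℕ, m ≤ n ∧ ∃ ε > 0,
  (∀ s ∉ cylinder p n, val x s ≤ ‖x‖ - ε) ∧
  (∀ s ∈ cylinder p n, ‖x‖ - 1 / ((m : ℝ) + 1) + ε ≤ val x s)}

theorem BB_open : IsOpen (BB T) := Metric.isOpen_ball

theorem PP_open (m : ℕ) : IsOpen (PP T m) := by
  rw [Metric.isOpen_iff]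
  rintro x ⟨hxB, p, n, hmn, ε, hε, h1, h2⟩
  obtain ⟨ρ, hρ, hball⟩ := Metric.isOpen_iff.1 (BB_open (T := T)) x hxB
  refine ⟨min ρ (ε / 4), lt_min hρ (by positivity), fun x' hx' => ?_⟩
  rw [Metric.mem_ball] at hx'
  have hd1 : dist x' x < ρ := hx'.trans_le (min_le_left _ _)
  have hd2 : ‖x' - x‖ < ε / 4 := by
    rw [← dist_eq_norm]; exact hx'.trans_le (min_le_right _ _)
  refine ⟨hball hd1, p, n, hmn, ε / 2, by positivity, fun s hs => ?_, fun s hs => ?_⟩
  · have a := abs_le.1 (val_close x' x s)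
    have b := abs_le.1 (norm_close x' x)
    linarith [h1 s hs, a.1, a.2, b.1, b.2]
  · have a := abs_le.1 (val_close x' x s)
    have b := abs_le.1 (norm_close x' x)
    linarith [h2 s hs, a.1, a.2, b.1, b.2]

theorem PP_dense (m : ℕ) : BB T ⊆ closure (PP T m) := by
  intro x hx
  rw [Metric.mem_closure_iff]
  intro δ hδ
  obtain ⟨s1, _, n0, h⟩ := peak hx hδ (fun _ => true)
  obtain ⟨x', hx'B, hd, ε, hε, h1, h2⟩ := h (max n0 m) (le_max_left _ _)
  refine ⟨x', ⟨hx'B, s1, max n0 m, le_max_right _ _, min ε (1 / ((m : ℝ) + 1)),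
    lt_min hε (by positivity), fun s hs => ?_, fun s hs => ?_⟩, ?_⟩
  · have := min_le_left ε (1 / ((m : ℝ) + 1))
    linarith [h1 s hs]
  · have := min_le_right ε (1 / ((m : ℝ) + 1))
    linarith [h2 s hs]
  · rw [dist_comm, dist_eq_norm]; exact hd

variable (T) in
/-- peaks in disjoint cylinders -/
def WW : Set (ET T × ET T) := {z | z.1 ∈ BB T ∧ z.2 ∈ BB T ∧ ∃ p p' : Cant, ∃ n : ℕ,
  p' ∉ cylinder p n ∧ ∃ ε > 0, (∀ s ∉ cylinder p n, val z.1 s ≤ ‖z.1‖ - ε) ∧
  (∀ s ∉ cylinder p' n, val z.2 s ≤ ‖z.2‖ - ε)}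

theorem WW_open : IsOpen (WW T) := by
  rw [Metric.isOpen_iff]
  rintro ⟨x, y⟩ ⟨hxB, hyB, p, p', n, hpp, ε, hε, h1, h2⟩
  obtain ⟨ρ, hρ, hball⟩ := Metric.isOpen_iff.1 (BB_open (T := T)) x hxB
  obtain ⟨ρ', hρ', hball'⟩ := Metric.isOpen_iff.1 (BB_open (T := T)) y hyB
  refine ⟨min (min ρ ρ') (ε / 4), lt_min (lt_min hρ hρ') (by positivity), ?_⟩
  rintro ⟨x', y'⟩ hz
  rw [Metric.mem_ball, Prod.dist_eq, max_lt_iff] at hz
  simp only at hz h1 h2
  have hd1 : dist x' x < ρ := hz.1.trans_le ((min_le_left _ _).trans (min_le_left _ _))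
  have hd1' : dist y' y < ρ' := hz.2.trans_le ((min_le_left _ _).trans (min_le_right _ _))
  have hd2 : ‖x' - x‖ < ε / 4 := by
    rw [← dist_eq_norm]; exact hz.1.trans_le (min_le_right _ _)
  have hd2' : ‖y' - y‖ < ε / 4 := by
    rw [← dist_eq_norm]; exact hz.2.trans_le (min_le_right _ _)
  refine ⟨hball hd1, hball' hd1', p, p', n, hpp, ε / 2, by positivity, fun s hs => ?_,
    fun s hs => ?_⟩
  · have a := abs_le.1 (val_close x' x s)
    have b := abs_le.1 (norm_close x' x)
    simp only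
    linarith [h1 s hs, a.1, a.2, b.1, b.2]
  · have a := abs_le.1 (val_close y' y s)
    have b := abs_le.1 (norm_close y' y)
    simp only
    linarith [h2 s hs, a.1, a.2, b.1, b.2]

theorem WW_dense : BB T ×ˢ BB T ⊆ closure (WW T) := by
  rintro ⟨x, y⟩ ⟨hx, hy⟩
  rw [Metric.mem_closure_iff]
  intro δ hδ
  obtain ⟨s1, _, n0, h⟩ := peak hx hδ (fun _ => true)
  obtain ⟨s2, hne, n0', h'⟩ := peak hy hδ s1
  set n := max (max n0 n0') (firstDiff s2 s1 + 1) with hn
  obtain ⟨x', hx'B, hd, ε, hε, h1, _⟩ := h n ((le_max_left _ _).trans (le_max_left _ _))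
  obtain ⟨y', hy'B, hd', ε', hε', h1', _⟩ := h' n ((le_max_right _ _).trans (le_max_left _ _))
  refine ⟨(x', y'), ⟨hx'B, hy'B, s1, s2, n, ?_, min ε ε', lt_min hε hε', fun s hs => ?_,
    fun s hs => ?_⟩, ?_⟩
  · intro hmem
    rw [mem_cylinder_iff_le_firstDiff hne] at hmem
    have := le_max_right (max n0 n0') (firstDiff s2 s1 + 1)
    omega
  · have := min_le_left ε ε'
    simp only
    linarith [h1 s hs]
  · have := min_le_right ε ε'
    simp only
    linarith [h1' s hs]
  · rw [Prod.dist_eq, max_lt_iff]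
    simp only
    rw [dist_comm, dist_eq_norm, dist_comm y, dist_eq_norm]
    exact ⟨hd, hd'⟩

/-! ### peaks -/

/-- `t` is the peak of `x` -/
def Peak (x : ET T) (t : Cant) : Prop :=
  (∀ n, ∃ ε > 0, ∀ s ∉ cylinder t n, val x s ≤ ‖x‖ - ε) ∧
  (∀ ε > 0, ∃ n, ∀ s ∈ cylinder t n, ‖x‖ - ε ≤ val x s)

theorem exists_peak {x : ET T} (hx : ∀ m, x ∈ PP T m) : ∃ t, Peak x t := by
  have hxB : x ∈ BB T := (hx 0).1
  choose _ p n hmn ε hε h1 h2 using hx
  have hmeet : ∀ m m', ∃ s, s ∈ cylinder (p m) (n m) ∧ s ∈ cylinder (p m') (n m') := by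
    intro m m'
    obtain ⟨s, hs⟩ := near_max hxB (lt_min (hε m) (hε m'))
    refine ⟨s, ?_, ?_⟩
    · by_contra hcon
      have := h1 m s hcon
      have := min_le_left (ε m) (ε m')
      linarith
    · by_contra hcon
      have := h1 m' s hcon
      have := min_le_right (ε m) (ε m')
      linarith
  set t : Cant := fun i => p (i + 1) i with ht
  have htm : ∀ m, t ∈ cylinder (p m) (n m) := by
    intro m
    rw [mem_cylinder_iff]
    intro i hi
    obtain ⟨s, hs1, hs2⟩ := hmeet (i + 1) m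
    rw [mem_cylinder_iff] at hs1 hs2
    have := hmn (i + 1)
    rw [ht]
    simp only
    rw [← hs1 i (by omega), hs2 i hi]
  have hcyl : ∀ m, cylinder t (n m) = cylinder (p m) (n m) := fun m =>
    mem_cylinder_iff_eq.1 (htm m)
  refine ⟨t, fun m => ⟨ε m, hε m, fun s hs => h1 m s fun hs' => hs ?_⟩, fun e he => ?_⟩
  · rw [← hcyl m] at hs'
    exact cylinder_anti t (hmn m) hs'
  · obtain ⟨m, hm⟩ := exists_nat_one_div_lt he
    refine ⟨n m, fun s hs => ?_⟩
    rw [hcyl m] at hs
    linarith [h2 m s hs, hε m]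

theorem peak_mem {x : ET T} (hx : x ∈ BB T) {t : Cant} (ht : Peak x t) {p : Cant} {n : ℕ} {ε : ℝ}
    (hε : 0 < ε) (h : ∀ s ∉ cylinder p n, val x s ≤ ‖x‖ - ε) : t ∈ cylinder p n := by
  obtain ⟨ε', hε', h'⟩ := ht.1 n
  obtain ⟨s, hs⟩ := near_max hx (lt_min hε hε')
  have h1 : s ∈ cylinder p n := by
    by_contra hcon
    have := h s hcon
    have := min_le_left ε ε'
    linarith
  have h2 : s ∈ cylinder t n := by
    by_contra hcon
    have := h' s hcon
    have := min_le_right ε ε'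
    linarith
  rw [mem_cylinder_iff] at h1 h2 ⊢
  intro i hi
  rw [← h2 i hi, h1 i hi]

theorem peak_not_diff {x : ET T} {t : Cant} (hxB : x ∈ BB T) (ht : Peak x t) (hT : t ∈ T) :
    ¬ GateauxAt (BB T) (fun x : ET T => ‖x‖) x := by
  intro hG
  have hsd := sd_of_diff (gateaux_iff.1 hG)
  obtain ⟨δ, hδ, h⟩ := hsd {eJ hT} ⟨eJ hT, rfl⟩ (1 / 2) (by norm_num)
  obtain ⟨h1, h2, h3⟩ := h (eJ hT) rfl (δ / 2) (by positivity) (by linarith)
  set r := δ / 2 with hr
  have hr0 : 0 < r := by positivity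
  have a : ‖x‖ + r ≤ ‖x + r • eJ hT‖ := by
    apply le_of_forall_pos_le_add
    intro e he
    obtain ⟨n, hn⟩ := ht.2 e he
    have hs := hn (flip t (2 * n)) (flip_mem t (by omega))
    have hv := val_le (x + r • eJ hT) (flip t (2 * n))
    rw [val_add, val_smul, val_eJ] at hv
    have hj : jumpF t (flip t (2 * n)) = 1 := by
      unfold jumpF
      rw [if_pos]
      exact ⟨flip_ne' _ _, by rw [firstDiff_flip]; exact even_two_mul n⟩
    rw [hj] at hv
    linarith
  have b : ‖x‖ ≤ ‖x - r • eJ hT‖ := by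
    apply le_of_forall_pos_le_add
    intro e he
    obtain ⟨n, hn⟩ := ht.2 e he
    have hs := hn t (self_mem_cylinder t n)
    have hv := val_le (x - r • eJ hT) t
    rw [val_sub, val_smul, val_eJ] at hv
    have hj : jumpF t t = 0 := by
      unfold jumpF
      rw [if_neg]
      simp
    rw [hj] at hv
    linarith
  linarith

end

end H647R3.GDS.TB

namespace H647R3.GDS

open H647R3.Fac TB PiNat

theorem taskB : TaskB := by
  intro hM T hT hWA
  have hcs : CompleteSpace (ET T) := by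
    have : IsClosed ((ET T : Submodule ℝ BF) : Set BF) := Submodule.isClosed_topologicalClosure _
    exact this.completeSpace_coe
  have hne : (BB T).Nonempty := ⟨eI T [], Metric.mem_ball_self (by norm_num)⟩
  obtain ⟨S, hSD, hSG, hSd, hSdiff⟩ := hWA (BB T) hne BB_open (convex_ball _ _)
    (fun x : ET T => ‖x‖) continuous_norm.continuousOn
    ((convexOn_norm convex_univ).subset (subset_univ _) (convex_ball _ _))
  obtain ⟨U, hUo, hU⟩ := isGδ_iff_eq_iInter_nat.1 hSG
  obtain ⟨z, hzc, hzB, hzD, hzW⟩ := hM (ET T) (BB T) BB_open hne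
    (fun n => if Even n then U (n / 2) else PP T (n / 2))
    (fun n => by
      split_ifs
      · exact hUo _
      · exact PP_open _)
    (fun n => by
      split_ifs
      · refine hSd.trans (closure_mono ?_)
        rw [hU]
        exact iInter_subset _ _
      · exact PP_dense _)
    (fun _ => WW T) (fun _ => WW_open) (fun _ => WW_dense)
  have hzS : ∀ σ, z σ ∈ S := by
    intro σ
    rw [hU, mem_iInter]
    intro n
    have := hzD σ (2 * n)
    simpa using this
  have hzP : ∀ σ m, z σ ∈ PP T m := by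
    intro σ m
    have := hzD σ (2 * m + 1)
    rw [if_neg (by simp), show (2 * m + 1) / 2 = m by omega] at this
    exact this
  choose τ hτ using fun σ => exists_peak (hzP σ)
  have hinj : Function.Injective τ := by
    intro σ σ' h
    by_contra hne
    obtain ⟨h1, h2, p, p', n, hpp, ε, hε, h3, h4⟩ := hzW σ σ' hne 0
    have a := peak_mem h1 (hτ σ) hε h3
    have b := peak_mem h2 (hτ σ') hε h4
    rw [← h] at b
    rw [mem_cylinder_iff] at a b
    apply hpp
    rw [mem_cylinder_iff]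
    intro i hi
    rw [← b i hi, a i hi]
  have hcont : Continuous τ := by
    refine continuous_pi fun i => ?_
    rw [continuous_iff_continuousAt]
    intro σ0
    obtain ⟨ε, hε, h⟩ := (hτ σ0).1 (i + 1)
    have hev : ∀ᶠ σ in 𝓝 σ0, ‖z σ - z σ0‖ < ε / 4 := by
      have := hzc.continuousAt (x := σ0)
      have h2 := Metric.tendsto_nhds.1 this (ε / 4) (by positivity)
      filter_upwards [h2] with σ hσ
      rwa [dist_eq_norm] at hσ
    have heq : ∀ᶠ σ in 𝓝 σ0, τ σ i = τ σ0 i := by
      filter_upwards [hev] with σ hσ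
      have hmem : τ σ ∈ cylinder (τ σ0) (i + 1) := by
        refine peak_mem (hzB σ) (hτ σ) (ε := ε / 2) (by positivity) fun s hs => ?_
        have a := abs_le.1 (val_close (z σ) (z σ0) s)
        have b := abs_le.1 (norm_close (z σ) (z σ0))
        linarith [h s hs, a.1, a.2, b.1, b.2]
      rw [mem_cylinder_iff] at hmem
      exact hmem i (by omega)
    exact (continuousAt_const (y := τ σ0 i)).congr (heq.mono fun σ hσ => hσ.symm)
  obtain ⟨σ, hσ⟩ := hT τ hcont hinj
  exact peak_not_diff (hzB σ) (hτ σ) hσ (hSdiff _ (hzS σ))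

end H647R3.GDS
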